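import Mathlib

/-!
# MP_298761_ag: the cases of the variational Hodge conjecture form a chain

`Geometry`: smooth projective complex varieties, their rational cohomology in even degrees, the
algebraic classes, smooth very ample divisors, and flat sections over smooth connected curves.
`VHC G d p`: the variational Hodge conjecture for codimension `p` in relative dimension `d`.
-/

set_option autoImplicit false

namespace Pool.Agent.Results.MP_298761_ag.DimensionChain

/-- Smooth projective complex varieties and algebraic classes: the data.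

* `Var`: smooth projective equidimensional non-empty complex schemes (not necessarily connected);
  `H Y p = H²ᵖ(Y, ℚ)`, `A Y p` the `ℚ`-span of the classes of the subvarieties of codimension `p`.
* `Div Y`: smooth very ample effective divisors `F` of `Y`, `var F` the variety `F`,
  `res F = i^*` and `gys F = i_*` for the inclusion `i : F → Y`.
* `P1 Y = Y × ℙ¹`, `pr` the pull back, `hp x = pr x ∪ [Y × point]`.
* `IsFlat V p φ`: the points of `B` are the complex points of a smooth connected complex curve `S`,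
  there is a smooth projective morphism `f : X → S` with the fibres `V s`, and `φ` is a (global) flat
  section of `R²ᵖ f_* ℚ`. -/
structure Geometry where
  /-- varieties -/
  Var : Type
  /-- the dimension -/
  dim : Var → ℕ
  /-- rational cohomology in even degrees -/
  H : Var → ℕ → Type
  [grp : ∀ Y p, AddCommGroup (H Y p)]
  [mod : ∀ Y p, Module ℚ (H Y p)]
  /-- algebraic classes -/
  A : ∀ Y p, Submodule ℚ (H Y p)
  /-- smooth very ample divisors -/
  Div : Var → Type
  /-- the divisor as a variety -/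
  var : ∀ {Y : Var}, Div Y → Var
  /-- restriction to a divisor -/
  res : ∀ {Y : Var} (F : Div Y) (p : ℕ), H Y p →ₗ[ℚ] H (var F) p
  /-- Gysin map of a divisor -/
  gys : ∀ {Y : Var} (F : Div Y) (p : ℕ), H (var F) p →ₗ[ℚ] H Y (p + 1)
  /-- product with the projective line -/
  P1 : Var → Var
  /-- pull back to the product with the projective line -/
  pr : ∀ (Y : Var) (p : ℕ), H Y p →ₗ[ℚ] H (P1 Y) p
  /-- pull back, then cup product with the class of `Y × point` -/
  hp : ∀ (Y : Var) (p : ℕ), H Y p →ₗ[ℚ] H (P1 Y) (p + 1)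
  /-- flat sections of smooth projective families over smooth connected curves -/
  IsFlat : ∀ {B : Type} (V : B → Var) (p : ℕ), (∀ s, H (V s) p) → Prop

attribute [instance] Geometry.grp Geometry.mod

/-- Known facts on single varieties. -/
structure Cycles (G : Geometry) : Prop where
  /-- dimension of a divisor -/
  dim_div : ∀ {Y : G.Var} (F : G.Div Y), G.dim (G.var F) + 1 = G.dim Y
  /-- `H⁰` is spanned by the classes of the connected components -/
  alg_zero : ∀ (Y : G.Var) (x : G.H Y 0), x ∈ G.A Y 0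
  /-- Cycle classes are compatible with pull back (Fulton, Intersection Theory, Ch. 19). -/
  alg_res : ∀ {Y : G.Var} (F : G.Div Y) (p : ℕ), ∀ x ∈ G.A Y p, G.res F p x ∈ G.A (G.var F) p
  /-- Cycle classes are compatible with push forward (Fulton, Ch. 19). -/
  alg_gys : ∀ {Y : G.Var} (F : G.Div Y) (p : ℕ), ∀ x ∈ G.A (G.var F) p, G.gys F p x ∈ G.A Y (p + 1)
  /-- Lefschetz' hyperplane theorem -/
  res_inj : ∀ {Y : G.Var} (F : G.Div Y) (p : ℕ), 2 * p ≤ G.dim (G.var F) →
    Function.Injective (G.res F p)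
  /-- Lefschetz' hyperplane theorem -/
  res_surj : ∀ {Y : G.Var} (F : G.Div Y) (p : ℕ), 2 * p < G.dim (G.var F) →
    Function.Surjective (G.res F p)
  /-- dimension of `Y × ℙ¹` -/
  dim_P1 : ∀ Y : G.Var, G.dim (G.P1 Y) = G.dim Y + 1
  /-- Pull back to `Y × ℙ¹`; conversely restrict to `Y × point`. -/
  alg_pr : ∀ (Y : G.Var) (p : ℕ) (x : G.H Y p), G.pr Y p x ∈ G.A (G.P1 Y) p ↔ x ∈ G.A Y p
  /-- Cup product with `[Y × point]`; conversely push forward to `Y`. -/
  alg_hp : ∀ (Y : G.Var) (p : ℕ) (x : G.H Y p), G.hp Y p x ∈ G.A (G.P1 Y) (p + 1) ↔ x ∈ G.A Y p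

/-- Known facts on pencils.  A general pencil through `F` has a smooth base locus `D ⊆ F` (Bertini);
`m t` are its smooth members, the fibres of the blow up of `D` over an open part of the line.  If `α`
is algebraic on all of them, then some algebraic class of the blow up has the same restrictions (the
relative Hilbert scheme has countably many components, which are projective; Grothendieck), and the
algebraic classes of the blow up come from `Y` and `D` (Fulton, 6.7; Voisin, Hodge Theory I, 7.3.3):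
`i^* α = i^* z + k_* w` with algebraic `z`, `w`, where `k : D → F`.  Moreover
`k_* k^* i^* = i^* i_* i^*`, since both are the cup product with the class of `F`. -/
def Pencils (G : Geometry) : Prop :=
  ∀ {Y : G.Var} (F : G.Div Y), 2 ≤ G.dim (G.var F) →
    ∃ (T : Type) (m : T → G.Div Y) (o : T) (D : G.Div (G.var F)), m o = F ∧
      (∀ (p : ℕ) (α : G.H Y p), G.IsFlat (fun t => G.var (m t)) p (fun t => G.res (m t) p α)) ∧
      (∀ (p : ℕ) (α : G.H Y (p + 1)),
        (∀ t, G.res (m t) (p + 1) α ∈ G.A (G.var (m t)) (p + 1)) →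
        ∃ z ∈ G.A Y (p + 1), ∃ w ∈ G.A (G.var D) p,
          G.res F (p + 1) α = G.res F (p + 1) z + G.gys D p w) ∧
      ∀ (p : ℕ) (x : G.H Y p),
        G.gys D p (G.res D p (G.res F p x)) = G.res F (p + 1) (G.gys F p (G.res F p x))

/-- Known facts on families `X → S`: the family `X × ℙ¹ → S`, and relative divisors. -/
structure Families (G : Geometry) : Prop where
  /-- the family `X × ℙ¹ → S` -/
  flat_pr : ∀ {B : Type} (V : B → G.Var) (p : ℕ) (φ : ∀ s, G.H (V s) p), G.IsFlat V p φ →
    G.IsFlat (fun s => G.P1 (V s)) p (fun s => G.pr (V s) p (φ s))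
  /-- the family `X × ℙ¹ → S` -/
  flat_hp : ∀ {B : Type} (V : B → G.Var) (p : ℕ) (φ : ∀ s, G.H (V s) p), G.IsFlat V p φ →
    G.IsFlat (fun s => G.P1 (V s)) (p + 1) (fun s => G.hp (V s) p (φ s))
  /-- Over an open part `B'` of the base which contains two given points there is a relative smooth
  very ample divisor (Serre, Bertini). -/
  flat_res : ∀ {B : Type} (V : B → G.Var) (p : ℕ) (φ : ∀ s, G.H (V s) p), G.IsFlat V p φ →
    (∀ s, 1 ≤ G.dim (V s)) → ∀ s₀ s₁ : B,
    ∃ (B' : Type) (b : B' → B) (t₀ t₁ : B') (m : ∀ t, G.Div (V (b t))), b t₀ = s₀ ∧ b t₁ = s₁ ∧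
      G.IsFlat (fun t => G.var (m t)) p (fun t => G.res (m t) p (φ (b t)))
  /-- If the fibres have dimension `≤ 2p`, then `i_* : H²ᵖ(F) → H²ᵖ⁺²(Y)` is an isomorphism for their
  smooth very ample divisors (Lefschetz).  An algebraic class in `H²ᵖ⁺²` of a fibre is a combination
  of classes of disjoint smooth subvarieties (Kleiman, Geometry on Grassmannians and applications to
  splitting bundles and smoothing cycles, Publ. IHES 36, 1969), whose union lies on a smooth very
  ample divisor (Bertini), which extends to a relative divisor over a neighbourhood of two given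
  points (Serre). -/
  flat_gys : ∀ {B : Type} (V : B → G.Var) (p : ℕ) (φ : ∀ s, G.H (V s) (p + 1)),
    G.IsFlat V (p + 1) φ → (∀ s, 1 ≤ G.dim (V s) ∧ G.dim (V s) ≤ 2 * p) →
    ∀ s₀ s₁ : B, φ s₀ ∈ G.A (V s₀) (p + 1) →
    ∃ (B' : Type) (b : B' → B) (t₀ t₁ : B') (m : ∀ t, G.Div (V (b t)))
      (ψ : ∀ t, G.H (G.var (m t)) p), b t₀ = s₀ ∧ b t₁ = s₁ ∧
      G.IsFlat (fun t => G.var (m t)) p ψ ∧ (∀ t, G.gys (m t) p (ψ t) = φ (b t)) ∧
      ψ t₀ ∈ G.A (G.var (m t₀)) p

/-- The listed facts. -/
structure Known (G : Geometry) : Prop where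
  cycles : Cycles G
  pencils : Pencils G
  families : Families G

/-- The facts are consistent: a model with one-dimensional groups `H Y p`. -/
def model : Geometry where
  Var := ℕ
  dim := id
  H := fun _ _ => ℚ
  A := fun _ _ => ⊤
  Div := fun n => {m : ℕ // m + 1 = n}
  var := fun F => F.1
  res := fun _ _ => LinearMap.id
  gys := fun _ _ => LinearMap.id
  P1 := fun n => n + 1
  pr := fun _ _ => LinearMap.id
  hp := fun _ _ => LinearMap.id
  IsFlat := fun _ _ φ => ∀ s t, φ s = φ t

theorem model_known : Known model where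
  cycles :=
    { dim_div := fun F => F.2
      alg_zero := fun _ _ => trivial
      alg_res := fun _ _ _ _ => trivial
      alg_gys := fun _ _ _ _ => trivial
      res_inj := fun _ _ _ => Function.injective_id
      res_surj := fun _ _ _ => Function.surjective_id
      dim_P1 := fun _ => rfl
      alg_pr := fun _ _ _ => Iff.rfl
      alg_hp := fun _ _ _ => Iff.rfl }
  pencils := fun {Y} F hF => ⟨Unit, fun _ => F, (), ⟨F.1 - 1, by
      have : 2 ≤ F.1 := hF
      change F.1 - 1 + 1 = F.1
      omega⟩, rfl, fun _ _ _ _ => rfl,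
    fun _ α _ => ⟨α, trivial, 0, trivial, (add_zero α).symm⟩, fun _ _ => rfl⟩
  families :=
    { flat_pr := fun _ _ _ h => h
      flat_hp := fun _ _ _ h => h
      flat_res := fun {B} V _ _ h hd s₀ s₁ => ⟨B, id, s₀, s₁,
        fun t => ⟨Nat.pred (V t), Nat.succ_pred_eq_of_pos (hd t)⟩, rfl, rfl, h⟩
      flat_gys := fun {B} V _ φ h hd s₀ s₁ _ => ⟨B, id, s₀, s₁,
        fun t => ⟨Nat.pred (V t), Nat.succ_pred_eq_of_pos (hd t).1⟩, φ, rfl, rfl, h, fun _ => rfl,
        trivial⟩ }

/-- The variational Hodge conjecture for codimension `p` in relative dimension `d` (smooth projective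
families over smooth connected curves). -/
def VHC (G : Geometry) (d p : ℕ) : Prop :=
  ∀ (B : Type) (V : B → G.Var) (φ : ∀ s, G.H (V s) p), (∀ s, G.dim (V s) = d) →
    G.IsFlat V p φ → (∃ s, φ s ∈ G.A (V s) p) → ∀ s, φ s ∈ G.A (V s) p

variable {G : Geometry} (K : Known G)
include K

theorem vhc_pr {d p : ℕ} (h : VHC G (d + 1) p) : VHC G d p := by
  intro B V φ hd hf ⟨s₀, h0⟩ s
  have h1 := h B (fun s => G.P1 (V s)) (fun s => G.pr (V s) p (φ s))
    (fun s => by rw [K.cycles.dim_P1, hd]) (K.families.flat_pr V p φ hf)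
    ⟨s₀, (K.cycles.alg_pr _ _ _).2 h0⟩ s
  exact (K.cycles.alg_pr _ _ _).1 h1

theorem vhc_hp {d p : ℕ} (h : VHC G (d + 1) (p + 1)) : VHC G d p := by
  intro B V φ hd hf ⟨s₀, h0⟩ s
  have h1 := h B (fun s => G.P1 (V s)) (fun s => G.hp (V s) p (φ s))
    (fun s => by rw [K.cycles.dim_P1, hd]) (K.families.flat_hp V p φ hf)
    ⟨s₀, (K.cycles.alg_hp _ _ _).2 h0⟩ s
  exact (K.cycles.alg_hp _ _ _).1 h1

theorem vhc_mono {d d' p : ℕ} (hdd : d ≤ d') (h : VHC G d' p) : VHC G d p := by
  induction d', hdd using Nat.le_induction with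
  | base => exact h
  | succ n _ ih => exact ih (vhc_pr K h)

/-- Weak Lefschetz for algebraic classes. -/
theorem weak_lefschetz (d : ℕ) : ∀ (q : ℕ), (∀ r ≤ q, VHC G d r) → ∀ {Y : G.Var} (F : G.Div Y),
    G.dim (G.var F) ≤ d → 2 * q ≤ G.dim (G.var F) → ∀ α : G.H Y q,
    G.res F q α ∈ G.A (G.var F) q → α ∈ G.A Y q := by
  intro q
  induction q with
  | zero => intro _ Y F _ _ α _; exact K.cycles.alg_zero Y α
  | succ q ih =>
    intro hv Y F hFd hq α hα
    have ih' : ∀ {Y : G.Var} (F : G.Div Y), G.dim (G.var F) ≤ d → 2 * q ≤ G.dim (G.var F) →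
        ∀ α : G.H Y q, G.res F q α ∈ G.A (G.var F) q → α ∈ G.A Y q :=
      ih (fun r hr => hv r (by omega))
    obtain ⟨T, m, o, D, hmo, hflat, hspread, hbase⟩ := K.pencils F (by omega)
    have hD : G.dim (G.var D) + 1 = G.dim (G.var F) := K.cycles.dim_div D
    have hall : ∀ t, G.res (m t) (q + 1) α ∈ G.A (G.var (m t)) (q + 1) := by
      have hv' : VHC G (G.dim (G.var F)) (q + 1) := vhc_mono K hFd (hv (q + 1) le_rfl)
      refine hv' T (fun t => G.var (m t)) (fun t => G.res (m t) (q + 1) α) (fun t => ?_)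
        (hflat (q + 1) α) ⟨o, ?_⟩
      · have h1 := K.cycles.dim_div (m t)
        have h2 := K.cycles.dim_div F
        omega
      · rw [hmo]; exact hα
    obtain ⟨z, hz, w, hw, hzw⟩ := hspread q α hall
    obtain ⟨x, hx⟩ := K.cycles.res_surj D q (by omega) w
    obtain ⟨y, hy⟩ := K.cycles.res_surj F q (by omega) x
    have hxA : x ∈ G.A (G.var F) q := ih' D (by omega) (by omega) x (by rw [hx]; exact hw)
    have hyA : y ∈ G.A Y q := ih' F hFd (by omega) y (by rw [hy]; exact hxA)
    have key : G.res F (q + 1) α = G.res F (q + 1) (z + G.gys F q (G.res F q y)) := by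
      rw [map_add, ← hbase, hy, hx, hzw]
    have hα' := K.cycles.res_inj F (q + 1) hq key
    rw [hα']
    exact Submodule.add_mem _ hz (K.cycles.alg_gys F q _ (K.cycles.alg_res F q _ hyA))

/-- Going up in the dimension, small codimension. -/
theorem vhc_up {d p : ℕ} (hp : 2 * p ≤ d) (hv : ∀ r ≤ p, VHC G d r) : VHC G (d + 1) p := by
  intro B V φ hd hf ⟨s₀, h0⟩ s₁
  obtain ⟨B', b, t₀, t₁, m, rfl, rfl, hflat⟩ :=
    K.families.flat_res V p φ hf (fun s => by rw [hd]; omega) s₀ s₁
  have hdim : ∀ t, G.dim (G.var (m t)) = d := fun t => by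
    have h1 := K.cycles.dim_div (m t)
    have h2 := hd (b t)
    omega
  have h1 := hv p le_rfl B' (fun t => G.var (m t)) (fun t => G.res (m t) p (φ (b t))) hdim hflat
    ⟨t₀, K.cycles.alg_res _ _ _ h0⟩ t₁
  exact weak_lefschetz K d p hv (m t₁) (hdim t₁).le (by rw [hdim]; exact hp) _ h1

/-- Going up in the dimension, small dimension of the cycles. -/
theorem vhc_up' {d p : ℕ} (hp : d + 1 ≤ 2 * p) (hv : VHC G d p) : VHC G (d + 1) (p + 1) := by
  intro B V φ hd hf ⟨s₀, h0⟩ s₁
  obtain ⟨B', b, t₀, t₁, m, ψ, rfl, rfl, hflat, hψ, hψ0⟩ :=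
    K.families.flat_gys V p φ hf (fun s => by rw [hd]; omega) s₀ s₁ h0
  have hdim : ∀ t, G.dim (G.var (m t)) = d := fun t => by
    have h1 := K.cycles.dim_div (m t)
    have h2 := hd (b t)
    omega
  have h1 := hv B' (fun t => G.var (m t)) ψ hdim hflat ⟨t₀, hψ0⟩ t₁
  rw [← hψ t₁]
  exact K.cycles.alg_gys _ _ _ h1

theorem diag_down {p q : ℕ} (hqp : q ≤ p) (h : VHC G (2 * p) p) : VHC G (2 * q) q := by
  induction p, hqp using Nat.le_induction with
  | base => exact h
  | succ n _ ih => exact ih (vhc_hp K (vhc_pr K h))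

theorem low (p : ℕ) (h : VHC G (2 * p) p) : ∀ d, ∀ q ≤ p, 2 * q ≤ d → VHC G d q := by
  intro d
  induction d with
  | zero =>
    intro q hq hd
    obtain rfl : q = 0 := by omega
    exact diag_down K hq h
  | succ d ih =>
    intro q hq hd
    rcases Nat.lt_or_ge d (2 * q) with h1 | h1
    · have : d + 1 = 2 * q := by omega
      rw [this]
      exact diag_down K hq h
    · exact vhc_up K h1 fun r hr => ih r (by omega) (by omega)

theorem low_iff {d p : ℕ} (hp : 2 * p ≤ d) : VHC G d p ↔ VHC G (2 * p) p :=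
  ⟨vhc_mono K hp, fun h => low K p h d p le_rfl hp⟩

theorem high_iff (e j : ℕ) : VHC G (2 * e + 1 + j) (e + 1 + j) ↔ VHC G (2 * e + 1) (e + 1) := by
  induction j with
  | zero => exact Iff.rfl
  | succ j ih =>
    rw [← ih]
    refine ⟨fun h => vhc_hp K (d := 2 * e + 1 + j) (p := e + 1 + j) h, fun h => ?_⟩
    exact vhc_up' K (d := 2 * e + 1 + j) (p := e + 1 + j) (by omega) h

/-- The statement number `n` of the chain: codimension `⌈n/2⌉` in relative dimension `n`. -/
def Link (G : Geometry) (n : ℕ) : Prop := VHC G n ((n + 1) / 2)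

theorem main {d p : ℕ} (hp : p ≤ d) : VHC G d p ↔ Link G (min (2 * p) (2 * (d - p) + 1)) := by
  unfold Link
  rcases Nat.lt_or_ge d (2 * p) with h1 | h1
  · have h2 : min (2 * p) (2 * (d - p) + 1) = 2 * (d - p) + 1 := by omega
    have h3 : (2 * (d - p) + 1 + 1) / 2 = (d - p) + 1 := by omega
    rw [h2, h3, ← high_iff K (d - p) (p - (d - p) - 1)]
    have h4 : 2 * (d - p) + 1 + (p - (d - p) - 1) = d := by omega
    have h5 : d - p + 1 + (p - (d - p) - 1) = p := by omega
    rw [h4, h5]
  · rw [low_iff K h1]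
    have h2 : min (2 * p) (2 * (d - p) + 1) = 2 * p := by omega
    have h3 : (2 * p + 1) / 2 = p := by omega
    rw [h2, h3]

theorem link_succ (n : ℕ) (h : Link G (n + 1)) : Link G n := by
  unfold Link at *
  obtain ⟨k, hk⟩ : ∃ k, n = 2 * k ∨ n = 2 * k + 1 := ⟨n / 2, by omega⟩
  rcases hk with rfl | rfl
  · have h1 : (2 * k + 1 + 1) / 2 = k + 1 := by omega
    have h2 : (2 * k + 1) / 2 = k := by omega
    rw [h1] at h
    rw [h2]
    exact vhc_hp K h
  · have h1 : (2 * k + 1 + 1 + 1) / 2 = k + 1 := by omega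
    have h2 : (2 * k + 1 + 1) / 2 = k + 1 := by omega
    rw [h1] at h
    rw [h2]
    exact vhc_pr K h

theorem link_mono {m n : ℕ} (hmn : m ≤ n) (h : Link G n) : Link G m := by
  induction n, hmn using Nat.le_induction with
  | base => exact h
  | succ n _ ih => exact ih (link_succ K n h)

omit K

/-- **Theorem.** The cases of the variational Hodge conjecture form a chain. -/
theorem result (G : Geometry) (K : Known G) :
    (∀ n, Link G (n + 1) → Link G n) ∧
      (∀ d p, p ≤ d → (VHC G d p ↔ Link G (min (2 * p) (2 * (d - p) + 1)))) ∧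
      ∀ d, (∀ p ≤ d, VHC G d p) ↔ Link G d := by
  refine ⟨link_succ K, fun d p hp => main K hp, fun d => ⟨fun h => h _ (by omega), fun h p hp => ?_⟩⟩
  exact (main K hp).2 (link_mono K (by omega) h)

end Pool.Agent.Results.MP_298761_ag.DimensionChain
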